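import Pool.Agent.Lib.MP_8f11b1_co_OG.Defs

/-! Basic facts on matroids which are minimal with two given minors. -/

set_option autoImplicit false

namespace Pool.Agent.MP8f11b1

open Matroid

variable {α : Type}

private theorem bas_indep {M N : Matroid α} {X Y : Set α} (hX : M.Indep X)
    (hXYE : X ∪ Y = M.E \ N.E) (hNe : N = M ／ X ＼ Y) :
    ∀ I ⊆ N.E, N.Indep I ↔ M.Indep (I ∪ X) := by
  intro I hI
  have hI' : ∀ x ∈ I, x ∉ X ∪ Y := by
    intro x hx hx2
    rw [hXYE] at hx2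
    exact hx2.2 (hI hx)
  rw [hNe, Matroid.delete_indep_iff, hX.contract_indep_iff]
  constructor
  · exact fun h1 => h1.1.2
  · intro h1
    refine ⟨⟨?_, h1⟩, ?_⟩
    · rw [Set.disjoint_left]
      exact fun x hx hx2 => hI' x hx (Or.inl hx2)
    · rw [Set.disjoint_left]
      exact fun x hx hx2 => hI' x hx (Or.inr hx2)

private theorem bas_minor_dual {M M' : Matroid α} (h : M'.IsMinor M) : (M'✶).IsMinor M✶ := by
  obtain ⟨C, D, -, -, hd, rfl⟩ := h.exists_eq_contract_delete_disjoint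
  rw [Matroid.dual_contract_delete, ← Matroid.contract_delete_comm _ hd.symm]
  exact Matroid.contract_delete_isMinor _ _ _

theorem idata_exists {M N X : Matroid α} [M.Finite] (h : Inter M N X) :
    ∃ C₁ D₁ C₂ D₂, IData M N X C₁ D₁ C₂ D₂ := by
  obtain ⟨C₁, D₁, i1, d1, e1, n1, b1⟩ := exists_indep_coindep h.hN
  obtain ⟨C₂, D₂, i2, d2, e2, n2, b2⟩ := exists_indep_coindep h.hX
  exact ⟨C₁, D₁, C₂, D₂, ⟨h, i1, i2, d1, d2, e1, e2, bas_indep i1 e1 n1, bas_indep i2 e2 n2,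
    b1, b2⟩⟩

section
variable {M N X : Matroid α} {C₁ D₁ C₂ D₂ : Set α}

/-- another contraction set for `N`, elements contracted -/
theorem idata_swap_con (h : IData M N X C₁ D₁ C₂ D₂) {C : Set α} (hC : M.Indep C)
    (hd : Disjoint C N.E) (hi : ∀ I ⊆ N.E, M.Indep (I ∪ C₁) ↔ M.Indep (I ∪ C)) {e : α}
    (he : e ∈ C) : N.IsMinor (M ／ {e}) :=
  AM.minor_con_of_indep hC hd h.inter.hN.subset (fun I hI => (h.n1 I hI).trans (hi I hI)) he

/-- another contraction set for `N`, elements deleted -/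
theorem idata_swap_del (h : IData M N X C₁ D₁ C₂ D₂) {C : Set α} (hC : M.Indep C)
    (hd : Disjoint C N.E) (hi : ∀ I ⊆ N.E, M.Indep (I ∪ C₁) ↔ M.Indep (I ∪ C)) {e : α}
    (heE : e ∈ M.E) (he : e ∉ C) (heN : e ∉ N.E) : N.IsMinor (M ＼ {e}) :=
  AM.minor_del_of_indep hC hd h.inter.hN.subset (fun I hI => (h.n1 I hI).trans (hi I hI)) heE he heN

private theorem bas_disj (h : IData M N X C₁ D₁ C₂ D₂) : Disjoint C₁ N.E := by
  rw [Set.disjoint_left]
  intro x hx hx2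
  have h1 : x ∈ C₁ ∪ D₁ := Or.inl hx
  rw [h.e1] at h1
  exact h1.2 hx2

private theorem bas_mem (h : IData M N X C₁ D₁ C₂ D₂) {e : α} (he : e ∈ C₁ ∨ e ∈ D₁) :
    e ∈ M.E ∧ e ∉ N.E := by
  have h1 : e ∈ C₁ ∪ D₁ := he
  rw [h.e1] at h1
  exact h1

theorem idata_con (h : IData M N X C₁ D₁ C₂ D₂) {e : α} (he : e ∈ C₁) :
    N.IsMinor (M ／ {e}) :=
  idata_swap_con h h.i1 (bas_disj h) (fun _ _ => Iff.rfl) he

theorem idata_del (h : IData M N X C₁ D₁ C₂ D₂) {e : α} (he : e ∈ D₁) :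
    N.IsMinor (M ＼ {e}) :=
  idata_swap_del h h.i1 (bas_disj h) (fun _ _ => Iff.rfl) (bas_mem h (Or.inr he)).1
    (fun h1 => Set.disjoint_left.1 h.d1 h1 he) (bas_mem h (Or.inr he)).2

theorem idata_disj (h : IData M N X C₁ D₁ C₂ D₂) : Disjoint C₁ C₂ := by
  rw [Set.disjoint_left]
  intro e h1 h2
  exact h.inter.con e (bas_mem h (Or.inl h1)).1 (idata_con h h1) (idata_con h.symm h2)

private theorem bas_disjD (h : IData M N X C₁ D₁ C₂ D₂) : Disjoint D₁ D₂ := by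
  rw [Set.disjoint_left]
  intro e h1 h2
  exact h.inter.del e (bas_mem h (Or.inr h1)).1 (idata_del h h1) (idata_del h.symm h2)

theorem idata_D (h : IData M N X C₁ D₁ C₂ D₂) : D₁ ⊆ X.E ∪ (C₂ ∩ D₁) := by
  intro e he
  by_cases hX : e ∈ X.E
  · exact Or.inl hX
  · have h1 : e ∈ C₂ ∪ D₂ := by
      rw [h.e2]
      exact ⟨(bas_mem h (Or.inr he)).1, hX⟩
    rcases h1 with h1 | h1
    · exact Or.inr ⟨h1, he⟩
    · exact absurd h1 (Set.disjoint_left.1 (bas_disjD h) he)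

theorem idata_card [M.Finite] (h : IData M N X C₁ D₁ C₂ D₂) :
    M.E.ncard ≤ N.E.ncard + X.E.ncard + (C₁ ∩ D₂).ncard + (C₂ ∩ D₁).ncard := by
  have hsub : M.E ⊆ N.E ∪ X.E ∪ (C₁ ∩ D₂) ∪ (C₂ ∩ D₁) := by
    intro e he
    by_cases hN : e ∈ N.E
    · exact Or.inl (Or.inl (Or.inl hN))
    by_cases hX : e ∈ X.E
    · exact Or.inl (Or.inl (Or.inr hX))
    have h1 : e ∈ C₁ ∪ D₁ := by
      rw [h.e1]
      exact ⟨he, hN⟩
    have h2 : e ∈ C₂ ∪ D₂ := by
      rw [h.e2]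
      exact ⟨he, hX⟩
    rcases h1 with h1 | h1 <;> rcases h2 with h2 | h2
    · exact absurd h2 (Set.disjoint_left.1 (idata_disj h) h1)
    · exact Or.inl (Or.inr ⟨h1, h2⟩)
    · exact Or.inr ⟨h2, h1⟩
    · exact absurd h2 (Set.disjoint_left.1 (bas_disjD h) h1)
  have hEf : M.E.Finite := M.ground_finite
  have hfin : (N.E ∪ X.E ∪ (C₁ ∩ D₂) ∪ (C₂ ∩ D₁)).Finite := by
    refine hEf.subset ?_
    rintro e (((h1 | h1) | h1) | h1)
    · exact h.inter.hN.subset h1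
    · exact h.inter.hX.subset h1
    · exact (bas_mem h (Or.inl h1.1)).1
    · exact (bas_mem h (Or.inr h1.2)).1
  refine (Set.ncard_le_ncard hsub hfin).trans ?_
  refine (Set.ncard_union_le _ _).trans (Nat.add_le_add_right ?_ _)
  refine (Set.ncard_union_le _ _).trans (Nat.add_le_add_right ?_ _)
  exact Set.ncard_union_le _ _

end

/-- duality -/
theorem inter_dual {M N X : Matroid α} (h : Inter M N X) : Inter M✶ N✶ X✶ := by
  refine ⟨bas_minor_dual h.hN, bas_minor_dual h.hX, ?_, ?_⟩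
  · intro e he h1 h2
    have h3 := bas_minor_dual h1
    have h4 := bas_minor_dual h2
    rw [Matroid.dual_dual, Matroid.dual_contract, Matroid.dual_dual] at h3 h4
    exact h.del e he h3 h4
  · intro e he h1 h2
    have h3 := bas_minor_dual h1
    have h4 := bas_minor_dual h2
    rw [Matroid.dual_dual, Matroid.dual_delete, Matroid.dual_dual] at h3 h4
    exact h.con e he h3 h4

end Pool.Agent.MP8f11b1
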