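import Pool.Agent.Lib.MP_8f11b1_co_DU.FBound
import Pool.Agent.Lib.MP_8f11b1_co_AM.Cir

/-! Matroids which are minimal with two given minors. -/

set_option autoImplicit false

namespace Pool.Agent.MP8f11b1

open Matroid

variable {α : Type}

/-- `M` has the minors `N` and `X`, but no deletion or contraction of an element has both. -/
structure Inter (M N X : Matroid α) : Prop where
  hN : N.IsMinor M
  hX : X.IsMinor M
  con : ∀ e ∈ M.E, N.IsMinor (M ／ {e}) → ¬ X.IsMinor (M ／ {e})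
  del : ∀ e ∈ M.E, N.IsMinor (M ＼ {e}) → ¬ X.IsMinor (M ＼ {e})

/-- Contraction and deletion sets for the two minors. -/
structure IData (M N X : Matroid α) (C₁ D₁ C₂ D₂ : Set α) : Prop where
  inter : Inter M N X
  i1 : M.Indep C₁
  i2 : M.Indep C₂
  d1 : Disjoint C₁ D₁
  d2 : Disjoint C₂ D₂
  e1 : C₁ ∪ D₁ = M.E \ N.E
  e2 : C₂ ∪ D₂ = M.E \ X.E
  n1 : ∀ I ⊆ N.E, N.Indep I ↔ M.Indep (I ∪ C₁)
  n2 : ∀ I ⊆ X.E, X.Indep I ↔ M.Indep (I ∪ C₂)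
  b1 : ∀ B, N.IsBase B → M.IsBase (B ∪ C₁)
  b2 : ∀ B, X.IsBase B → M.IsBase (B ∪ C₂)

theorem Inter.symm {M N X : Matroid α} (h : Inter M N X) : Inter M X N :=
  ⟨h.hX, h.hN, fun e he h1 h2 => h.con e he h2 h1, fun e he h1 h2 => h.del e he h2 h1⟩

theorem IData.symm {M N X : Matroid α} {C₁ D₁ C₂ D₂ : Set α} (h : IData M N X C₁ D₁ C₂ D₂) :
    IData M X N C₂ D₂ C₁ D₁ :=
  ⟨h.inter.symm, h.i2, h.i1, h.d2, h.d1, h.e2, h.e1, h.n2, h.n1, h.b2, h.b1⟩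

end Pool.Agent.MP8f11b1
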