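import Pool.Agent.Lib.MP_8f11b1_co_OG.Bas

/-! Minimal matroids without a minor `W_{2,4}`. -/

set_option autoImplicit false

namespace Pool.Agent.MP8f11b1

open Matroid

variable {α : Type}

/-- elements of a common circuit are clones if there is no `W_{2,4}` -/
theorem clone_of_not_star (M : Matroid α) [M.Finite] (hs : ¬ Star M) {G : Set α}
    (hG : M.IsCircuit G) {p c : α} (hp : p ∈ G) (hc : c ∈ G) {S : Set α} (hS : S ⊆ M.E)
    (hpS : p ∉ S) (hcS : c ∉ S) (hi : M.Indep (insert p S)) : M.Indep (insert c S) := by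
  by_contra hnot
  have hcE : c ∈ M.E := hG.subset_ground hc
  have hSi : M.Indep S := hi.subset (Set.subset_insert _ _)
  have hdep : M.Dep (insert c S) := by
    rw [Matroid.Dep]
    exact ⟨hnot, Set.insert_subset hcE hS⟩
  have hcl : c ∈ M.closure S := (hSi.insert_dep_iff.1 hdep).1
  have hD : M.IsCircuit (M.fundCircuit c S) := hSi.fundCircuit_isCircuit hcl hcS
  have hGD : G ⊆ M.closure (M.fundCircuit c S) := by
    by_contra h1
    exact hs ⟨G, M.fundCircuit c S, hG, hD, ⟨c, hc, M.mem_fundCircuit c S⟩, h1⟩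
  have h2 : M.fundCircuit c S ⊆ M.closure S := by
    refine (M.fundCircuit_subset_insert c S).trans ?_
    exact Set.insert_subset hcl (M.subset_closure S hS)
  have h3 : p ∈ M.closure S := M.closure_subset_closure_of_subset_closure h2 (hGD hp)
  have h4 : M.Dep (insert p S) := hSi.insert_dep_iff.2 ⟨h3, hpS⟩
  exact h4.not_indep hi

theorem stf_half {M N X : Matroid α} [M.Finite] (hs : ¬ Star M) {C₁ D₁ C₂ D₂ : Set α}
    (h : IData M N X C₁ D₁ C₂ D₂) : (C₁ ∩ D₂).ncard ≤ X.E.ncard := by
  have hXE : X.E ⊆ M.E := h.inter.hX.subset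
  have hC2 : ∀ c ∈ C₂, c ∉ X.E := fun c hc => by
    have h1 : c ∈ M.E \ X.E := by
      rw [← h.e2]
      exact Or.inl hc
    exact h1.2
  have hcl : C₁ ∩ D₂ ⊆ M.closure X.E := by
    rintro p ⟨hp1, hp2⟩
    obtain ⟨B, hB⟩ := X.exists_isBase
    have hBE : B ⊆ X.E := hB.subset_ground
    have hBM : M.IsBase (B ∪ C₂) := h.b2 B hB
    have hpE : p ∈ M.E := h.i1.subset_ground hp1
    have hpX : p ∉ X.E := by
      have h1 : p ∈ M.E \ X.E := by
        rw [← h.e2]
        exact Or.inr hp2
      exact h1.2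
    have hpC2 : p ∉ C₂ := fun h1 => (Set.disjoint_left.1 h.d2) h1 hp2
    have hpB : p ∉ B ∪ C₂ := by
      rintro (h1 | h1)
      · exact hpX (hBE h1)
      · exact hpC2 h1
    have hG : M.IsCircuit (M.fundCircuit p (B ∪ C₂)) := hBM.fundCircuit_isCircuit hpE hpB
    by_cases hGC : (M.fundCircuit p (B ∪ C₂) ∩ C₂).Nonempty
    · exfalso
      obtain ⟨c, hcG, hcC⟩ := hGC
      have hpG : p ∈ M.fundCircuit p (B ∪ C₂) := M.mem_fundCircuit p _
      have hcC2 : c ∉ X.E := hC2 c hcC
      have hpC : p ∉ C₂ \ {c} := fun h1 => hpC2 h1.1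
      have hcC' : c ∉ C₂ \ {c} := fun h1 => h1.2 rfl
      have hC2E : C₂ ⊆ M.E := h.i2.subset_ground
      have hins : insert c (C₂ \ {c}) = C₂ := by
        rw [Set.insert_sdiff_singleton, Set.insert_eq_of_mem hcC]
      have hC : M.Indep (insert p (C₂ \ {c})) := by
        refine clone_of_not_star M hs hG hcG hpG (Set.sdiff_subset.trans hC2E) hcC' hpC ?_
        rw [hins]
        exact h.i2
      have hiff : ∀ I ⊆ X.E, M.Indep (I ∪ C₂) ↔ M.Indep (I ∪ insert p (C₂ \ {c})) := by
        intro I hI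
        have e1 : I ∪ C₂ = insert c (I ∪ (C₂ \ {c})) := by
          rw [← Set.union_insert, hins]
        have e2 : I ∪ insert p (C₂ \ {c}) = insert p (I ∪ (C₂ \ {c})) := by
          rw [← Set.union_insert]
        have hSE : I ∪ (C₂ \ {c}) ⊆ M.E :=
          Set.union_subset (hI.trans hXE) (Set.sdiff_subset.trans hC2E)
        have hc' : c ∉ I ∪ (C₂ \ {c}) := by
          rintro (h1 | h1)
          · exact hcC2 (hI h1)
          · exact hcC' h1
        have hp' : p ∉ I ∪ (C₂ \ {c}) := by
          rintro (h1 | h1)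
          · exact hpX (hI h1)
          · exact hpC h1
        rw [e1, e2]
        exact ⟨clone_of_not_star M hs hG hcG hpG hSE hc' hp',
          clone_of_not_star M hs hG hpG hcG hSE hp' hc'⟩
      have hd : Disjoint (insert p (C₂ \ {c})) X.E := by
        rw [Set.disjoint_left]
        rintro a (rfl | ha)
        · exact hpX
        · exact hC2 a ha.1
      exact h.inter.con p hpE (idata_con h hp1)
        (idata_swap_con h.symm hC hd hiff (Set.mem_insert _ _))
    · have h1 : p ∈ M.closure (M.fundCircuit p (B ∪ C₂) \ {p}) :=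
        hG.mem_closure_sdiff_singleton_of_mem (M.mem_fundCircuit p _)
      refine M.closure_subset_closure ?_ h1
      rintro x ⟨hx1, hx2⟩
      have hx3 : x ∈ insert p (B ∪ C₂) := M.fundCircuit_subset_insert p _ hx1
      rcases hx3 with h3 | h3 | h3
      · exact absurd h3 hx2
      · exact hBE h3
      · exact absurd ⟨x, hx1, h3⟩ hGC
  have h1 : M.Indep (C₁ ∩ D₂) := h.i1.subset Set.inter_subset_left
  rw [← rk_indep h1]
  exact (rk_le_of_subset_closure hcl).trans
    (rk_le_ncard (M.ground_finite.subset hXE))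

theorem stf_bound {M N X : Matroid α} [M.Finite] (hs : ¬ Star M) (h : Inter M N X) :
    M.E.ncard ≤ 2 * (N.E.ncard + X.E.ncard) := by
  obtain ⟨C₁, D₁, C₂, D₂, H⟩ := idata_exists h
  have h1 := idata_card H
  have h2 := stf_half hs H
  have h3 := stf_half hs H.symm
  omega

end Pool.Agent.MP8f11b1
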