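import Pool.Agent.Lib.MP_8f11b1_co_AM.Defs
import Pool.Agent.Lib.MP_8f11b1_co_AM.Cir

/-! Uniform minors of `W_{l,l+1}`. -/

set_option autoImplicit false

namespace Pool.Agent.MP8f11b1

open Matroid

variable {α : Type}

theorem circ_of_W {l : ℕ} (hl : 1 ≤ l) {M : Matroid α} (h : IsW l (l + 1) M) :
    ∃ M' : Matroid α, M'.IsMinor M ∧ IsU (l - 1) l M' := by
  obtain ⟨hfin, hcard, C, hCE, hCc, hI⟩ := h
  have hCfin : C.Finite := hfin.subset hCE
  obtain ⟨z, hz⟩ : ∃ z, z ∈ M.E \ C := by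
    rw [← Set.nonempty_def, Set.nonempty_iff_ne_empty]
    intro h0
    have h1 : M.E ⊆ C := Set.sdiff_eq_empty.1 h0
    have h2 := Set.ncard_le_ncard h1 hCfin
    omega
  have hE : M.E \ {z} = C := by
    refine (Set.eq_of_subset_of_ncard_le ?_ ?_ (hfin.subset Set.sdiff_subset)).symm
    · exact fun x hx => ⟨hCE hx, fun h => hz.2 (h ▸ hx)⟩
    · rw [Set.ncard_sdiff_singleton_of_mem hz.1]
      omega
  refine ⟨M ＼ {z}, AM.del_minor _ _, ?_, ?_, ?_⟩
  · rw [Matroid.delete_ground, hE]; exact hCfin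
  · rw [Matroid.delete_ground, hE]; exact hCc
  · intro I hIE
    rw [Matroid.delete_ground, hE] at hIE
    rw [Matroid.delete_indep_iff, hI I (hIE.trans hCE)]
    have hle := Set.ncard_le_ncard hIE hCfin
    have hd : Disjoint I {z} := Set.disjoint_singleton_right.2 fun h => hz.2 (hIE h)
    constructor
    · rintro ⟨⟨h1, h2⟩, -⟩
      have h3 : I.ncard ≠ l := fun h => h2 (Set.eq_of_subset_of_ncard_le hIE (by omega) hCfin)
      omega
    · intro h1
      refine ⟨⟨by omega, ?_⟩, hd⟩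
      rintro rfl
      omega

theorem free_of_W {l : ℕ} (hl : 1 ≤ l) {M : Matroid α} (h : IsW l (l + 1) M) :
    ∃ M' : Matroid α, M'.IsMinor M ∧ IsU l l M' := by
  obtain ⟨hfin, hcard, C, hCE, hCc, hI⟩ := h
  have hCfin : C.Finite := hfin.subset hCE
  obtain ⟨c, hc⟩ : C.Nonempty := by
    rw [← Set.ncard_pos hCfin]; omega
  refine ⟨M ＼ {c}, AM.del_minor _ _, ?_, ?_, ?_⟩
  · rw [Matroid.delete_ground]; exact hfin.subset Set.sdiff_subset
  · rw [Matroid.delete_ground, Set.ncard_sdiff_singleton_of_mem (hCE hc)]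
    omega
  · intro I hIE
    rw [Matroid.delete_ground] at hIE
    rw [Matroid.delete_indep_iff, hI I (hIE.trans Set.sdiff_subset)]
    have hle := Set.ncard_le_ncard hIE (hfin.subset Set.sdiff_subset)
    rw [Set.ncard_sdiff_singleton_of_mem (hCE hc)] at hle
    have hcI : c ∉ I := fun h => (hIE h).2 rfl
    constructor
    · rintro ⟨⟨h1, h2⟩, -⟩
      exact h1
    · intro h1
      refine ⟨⟨h1, ?_⟩, Set.disjoint_singleton_right.2 hcI⟩
      rintro rfl
      exact hcI hc

end Pool.Agent.MP8f11b1
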