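import Pool.Agent.Lib.MP_8f11b1_co_OG.NsF
import Pool.Agent.Lib.MP_8f11b1_co_OG.StF
import Pool.Agent.Lib.MP_8f11b1_co_OG.UofW
import Pool.Agent.Lib.MP_8f11b1_co_AM.Main3

/-! Unions `C ∪ D` where `C` omits a good matroid. -/

set_option autoImplicit false

namespace Pool.Agent.MP8f11b1

open Matroid

/-- a finite matroid outside a class has a minor which is an excluded minor of the class -/
theorem exists_excluded {C : ∀ α : Type, Matroid α → Prop} {δ : Type} (M : Matroid δ)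
    (hf : M.Finite) (h : ¬ C δ M) : ∃ X : Matroid δ, X.IsMinor M ∧ IsExcludedMinor C X := by
  classical
  have hex : ∃ n, ∃ X : Matroid δ, X.IsMinor M ∧ ¬ C δ X ∧ X.E.ncard = n :=
    ⟨_, M, Matroid.IsMinor.refl, h, rfl⟩
  obtain ⟨X, hX, hCX, hn⟩ := Nat.find_spec hex
  have hXf : X.E.Finite := hf.ground_finite.subset hX.subset
  refine ⟨X, hX, ⟨hXf⟩, hCX, ?_⟩
  intro M' hM' hne
  by_contra hc
  have h1 := Nat.find_min' hex ⟨M', hM'.trans hX, hc, rfl⟩
  have h2 : M'.E = X.E := Set.eq_of_subset_of_ncard_le hM'.subset (by omega) hXf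
  exact hne (hM'.eq_of_ground_subset h2.symm.subset).symm

/-- an excluded minor of a union is minimal with an excluded minor of each class -/
theorem union_inter {C D : ∀ α : Type, Matroid α → Prop} (hC : IsMinorClosed C)
    (hD : IsMinorClosed D) {δ : Type} {M : Matroid δ} (h : IsExcludedMinor (Union C D) M) :
    ∃ N X : Matroid δ, Inter M N X ∧ IsExcludedMinor C X ∧ IsExcludedMinor D N := by
  obtain ⟨hf, hn, hp⟩ := h
  obtain ⟨X, hX, hXe⟩ := exists_excluded (C := C) M hf (fun h => hn (Or.inl h))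
  obtain ⟨N, hN, hNe⟩ := exists_excluded (C := D) M hf (fun h => hn (Or.inr h))
  have key : ∀ M' : Matroid δ, M'.IsMinor M → M' ≠ M → N.IsMinor M' → ¬ X.IsMinor M' := by
    intro M' hM' hne h1 h2
    rcases hp M' hM' hne with h3 | h3
    · exact hXe.2.1 (hC.minor _ _ _ h2 h3)
    · exact hNe.2.1 (hD.minor _ _ _ h1 h3)
  exact ⟨N, X, ⟨hN, hX, fun e he => key _ (AM.con_minor M {e}) (AM.con_ne he),
    fun e he => key _ (AM.del_minor M {e}) (AM.del_ne he)⟩, hXe, hNe⟩

/-- the case of a minor isomorphic to `U` -/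
theorem union_good {C D : ∀ α : Type, Matroid α → Prop} (hC : IsMinorClosed C)
    (hD : IsMinorClosed D) {α : Type} (U : Matroid α) (hUC : ¬ C α U) {δ : Type}
    {M N : Matroid δ} (h : IsExcludedMinor (Union C D) M) (hN : N.IsMinor M) (hDN : ¬ D δ N)
    (hU : ∃ M' : Matroid δ, M'.IsMinor M ∧ Iso M' U) :
    IsExcludedMinor (Union (Ex U) (Ex N)) M := by
  obtain ⟨hf, hn, hp⟩ := h
  refine ⟨hf, ?_, ?_⟩
  · rintro (h | h)
    · exact h.2 hU
    · exact h.2 ⟨N, hN, Iso.refl N⟩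
  · intro M' hM' hne
    have hM'f : M'.Finite := ⟨hf.ground_finite.subset hM'.subset⟩
    rcases hp M' hM' hne with h | h
    · left
      refine ⟨hM'f, ?_⟩
      rintro ⟨M'', hM'', hi⟩
      exact hUC (hC.iso _ _ _ _ hi (hC.minor _ _ _ hM'' h))
    · right
      refine ⟨hM'f, ?_⟩
      rintro ⟨M'', hM'', hi⟩
      exact hDN (hD.iso _ _ _ _ hi (hD.minor _ _ _ hM'' h))

/-- no nonspanning circuit with `l` elements or more -/
theorem nsc_free_bound {δ : Type} (M N X : Matroid δ) [M.Finite] (h : Inter M N X) {l : ℕ}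
    (hl : 1 ≤ l) (hns : ¬ Nsc l M) :
    M.E.ncard ≤ (N.E.ncard + X.E.ncard) * (2 * l + 3) + 4 * l := by
  refine nsf_bound hl ?_ h
  intro C hC hCs
  by_contra hc
  exact hns ⟨C, hC, hCs, not_lt.1 hc⟩

/-- uniform matroids of corank at most one -/
theorem free_unif {α : Type} (U : Matroid α) {a b : ℕ} (hab : a ≤ b) (hb : b ≤ a + 1)
    (hU : IsU a b U) {δ : Type} (M N X : Matroid δ) [M.Finite] (h : Inter M N X)
    (hn : ¬ ∃ M' : Matroid δ, M'.IsMinor M ∧ Iso M' U) :
    M.E.ncard ≤ (N.E.ncard + X.E.ncard) * (2 * b + 3) + 4 * b := by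
  rcases Nat.eq_zero_or_pos b with hb0 | hb0
  · exfalso
    apply hn
    refine ⟨M ＼ M.E, AM.del_minor _ _, ?_⟩
    have h0 : (M ＼ M.E).E = ∅ := by rw [Matroid.delete_ground, Set.sdiff_self]
    refine iso_of_isU (a := a) (b := b) ⟨?_, ?_, ?_⟩ hU
    · rw [h0]; exact Set.finite_empty
    · rw [h0, Set.ncard_empty, hb0]
    · intro I hI
      rw [h0, Set.subset_empty_iff] at hI
      subst hI
      exact ⟨fun _ => by rw [Set.ncard_empty]; exact Nat.zero_le _, fun _ => Matroid.empty_indep _⟩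
  refine nsc_free_bound M N X h hb0 ?_
  intro hns
  obtain ⟨M', hM', hW⟩ := nsc_minor M hb0 hns
  apply hn
  rcases Nat.lt_or_ge a b with hlt | hge
  · obtain ⟨M'', hM'', hU'⟩ := circ_of_W hb0 hW
    have h1 : a = b - 1 := by omega
    subst h1
    exact ⟨M'', hM''.trans hM', iso_of_isU hU' hU⟩
  · obtain ⟨M'', hM'', hU'⟩ := free_of_W hb0 hW
    have h1 : a = b := by omega
    subst h1
    exact ⟨M'', hM''.trans hM', iso_of_isU hU' hU⟩

/-- matroids without a minor isomorphic to a good matroid -/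
theorem good_free_bound {α : Type} (U : Matroid α) (hg : Good U) {δ : Type} (M N X : Matroid δ)
    (hf : M.Finite) (h : Inter M N X)
    (hn : ¬ ∃ M' : Matroid δ, M'.IsMinor M ∧ Iso M' U) :
    M.E.ncard ≤ (N.E.ncard + X.E.ncard) * (2 * U.E.ncard + 3) + 4 * U.E.ncard := by
  haveI := hf
  haveI : M✶.Finite := ⟨hf.ground_finite⟩
  have hdual : ¬ ∃ M' : Matroid δ, M'.IsMinor M✶ ∧ Iso M' U✶ :=
    ((ex_dual U M).1 ⟨hf, hn⟩).2
  have hE : M✶.E = M.E := Matroid.dual_ground
  have hNE : N✶.E = N.E := Matroid.dual_ground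
  have hXE : X✶.E = X.E := Matroid.dual_ground
  rcases hg with ⟨a, b, hab, hU, hc⟩ | ⟨a, b, ha, hab, hU, hc⟩
  · rw [hU.2.1]
    rcases hc with hc | hc
    · have h1 := free_unif U✶ (a := b - a) (b := b) (by omega) (by omega) (hU.dual hab) M✶ N✶ X✶
        (inter_dual h) hdual
      rwa [hE, hNE, hXE] at h1
    · exact free_unif U hab hc hU M N X h hn
  · rw [hU.2.1]
    rcases hc with rfl | rfl | ⟨rfl, rfl⟩
    · have hU' := hU.dual hab
      have h2 : b = (b - 1) + 1 := by omega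
      have h3 : IsW (b - 1) (b - 1 + 1) U✶ := by rwa [← h2]
      rw [nsc_iff M✶ (by omega) U✶ h3] at hdual
      have h1 := nsc_free_bound M✶ N✶ X✶ (inter_dual h) (by omega) hdual
      rw [hE, hNE, hXE] at h1
      have h4 : (N.E.ncard + X.E.ncard) * (2 * (b - 1) + 3) ≤
          (N.E.ncard + X.E.ncard) * (2 * b + 3) := Nat.mul_le_mul_left _ (by omega)
      omega
    · rw [nsc_iff M ha U hU] at hn
      have h1 := nsc_free_bound M N X h ha hn
      have h4 : (N.E.ncard + X.E.ncard) * (2 * a + 3) ≤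
          (N.E.ncard + X.E.ncard) * (2 * (a + 1) + 3) := Nat.mul_le_mul_left _ (by omega)
      omega
    · rw [star_iff M U hU] at hn
      have h1 := stf_bound hn h
      omega

/-- excluded minors of a union `C ∪ D` where `C` omits a good matroid -/
theorem og_main {C D : ∀ α : Type, Matroid α → Prop} (hC : IsMinorClosed C)
    (hD : IsMinorClosed D) {s t : ℕ}
    (hs : ∀ (δ : Type) (M : Matroid δ), IsExcludedMinor C M → M.E.ncard ≤ s)
    (ht : ∀ (δ : Type) (M : Matroid δ), IsExcludedMinor D M → M.E.ncard ≤ t)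
    {α : Type} (U : Matroid α) (hg : Good U) (hUC : ¬ C α U) {δ : Type} (M : Matroid δ)
    (h : IsExcludedMinor (Union C D) M) :
    M.E.ncard ≤ 4 * (U.E.ncard + 1) * (s + t + 1) := by
  obtain ⟨N, X, hI, hX, hN⟩ := union_inter hC hD h
  have hXs := hs _ _ hX
  have hNt := ht _ _ hN
  by_cases hn : ∃ M' : Matroid δ, M'.IsMinor M ∧ Iso M' U
  · have h1 := union_good hC hD U hUC h hI.hN hN.2.1 hn
    have h2 := finC_good U hg _ N hN.1 _ M h1
    have h3 : 4 * (U.E.ncard + 1) * (N.E.ncard + 1) ≤ 4 * (U.E.ncard + 1) * (s + t + 1) :=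
      Nat.mul_le_mul_left _ (by omega)
    omega
  · have h1 := good_free_bound U hg M N X h.1 hI hn
    have h2 : (N.E.ncard + X.E.ncard) * (2 * U.E.ncard + 3) ≤ (s + t) * (2 * U.E.ncard + 3) :=
      Nat.mul_le_mul_right _ (by omega)
    nlinarith [Nat.zero_le (U.E.ncard * (s + t))]

end Pool.Agent.MP8f11b1
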