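import Pool.Agent.Lib.MP_8f11b1_co_OG.Bas
import Pool.Agent.Lib.MP_8f11b1_co_AM.RCol

/-! Elements which are not coloops. -/

set_option autoImplicit false

namespace Pool.Agent.MP8f11b1

open Matroid

variable {α : Type}

/-- the number of the elements of `C₁ ∩ D₂` which are not coloops of the matroid `R` of the small
circuits -/
theorem nsf_noncol {M N X : Matroid α} [M.Finite] {l : ℕ} (hl : 1 ≤ l) {C₁ D₁ C₂ D₂ : Set α}
    (h : IData M N X C₁ D₁ C₂ D₂) (R : Matroid α) (hRE : R.E = M.E)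
    (hRc : ∀ C, R.IsCircuit C → C.ncard < l)
    (hRi : ∀ I ⊆ M.E, M.Indep I ↔ R.Indep I ∧ I.ncard ≤ rk M M.E) :
    {p | p ∈ C₁ ∩ D₂ ∧ p ∈ R.closure (R.E \ {p})}.ncard ≤ (N.E.ncard + X.E.ncard) * l := by
  have hEf : M.E.Finite := M.ground_finite
  have hRfin : R.Finite := ⟨by rw [hRE]; exact hEf⟩
  have hNE : N.E ⊆ M.E := h.inter.hN.subset
  have hXE : X.E ⊆ M.E := h.inter.hX.subset
  have hC₁E : C₁ ⊆ M.E := h.i1.subset_ground
  have hC₁N : ∀ z ∈ C₁, z ∉ N.E := fun z hz => ((Set.ext_iff.1 h.e1 z).1 (Or.inl hz)).2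
  have hD₁N : ∀ z ∈ D₁, z ∉ N.E := fun z hz => ((Set.ext_iff.1 h.e1 z).1 (Or.inr hz)).2
  have hD₁E : ∀ z ∈ D₁, z ∈ M.E := fun z hz => ((Set.ext_iff.1 h.e1 z).1 (Or.inr hz)).1
  have hCD : ∀ z ∈ D₁, z ∉ C₁ := fun z hz hz' => Set.disjoint_left.1 h.d1 hz' hz
  have hRC₁ : R.Indep C₁ := ((hRi C₁ hC₁E).1 h.i1).1
  have hA : N.E ∪ X.E ⊆ R.E := by
    rw [hRE]
    exact Set.union_subset hNE hXE
  have hcount := col_count R hl hRc hRC₁ hA
  have hsub : {p | p ∈ C₁ ∩ D₂ ∧ p ∈ R.closure (R.E \ {p})} ⊆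
      {f | f ∈ C₁ ∧ f ∈ R.closure ((N.E ∪ X.E ∪ C₁) \ {f})} := by
    rintro p ⟨⟨hpC, hpD⟩, hp⟩
    refine ⟨hpC, ?_⟩
    by_contra hcon
    have hpE : p ∈ R.E := by rw [hRE]; exact hC₁E hpC
    have hsubA : (N.E ∪ C₁) \ {p} ⊆ (N.E ∪ X.E ∪ C₁) \ {p} := by
      rintro z ⟨hz | hz, hzp⟩
      · exact ⟨Or.inl (Or.inl hz), hzp⟩
      · exact ⟨Or.inr hz, hzp⟩
    have hp' : p ∉ R.closure ((N.E ∪ C₁) \ {p}) := fun h1 =>
      hcon (R.closure_subset_closure hsubA h1)
    have claim : ∀ q ∈ C₂ ∩ D₁, q ∈ R.closure ((N.E ∪ C₁) \ {p}) := by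
      rintro q ⟨hqC, hqD⟩
      by_contra hq
      have hqE : q ∈ M.E := hD₁E q hqD
      have hqR : q ∈ R.E := by rw [hRE]; exact hqE
      have hi : ∀ I ⊆ N.E, M.Indep (I ∪ C₁) ↔ M.Indep (I ∪ insert q (C₁ \ {p})) := by
        intro I hI
        set T := I ∪ (C₁ \ {p}) with hT
        have hTs : T ⊆ (N.E ∪ C₁) \ {p} := by
          rintro z (hz | hz)
          · refine ⟨Or.inl (hI hz), fun hzp => ?_⟩
            rw [Set.mem_singleton_iff] at hzp
            exact hC₁N p hpC (hzp ▸ hI hz)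
          · exact ⟨Or.inr hz.1, hz.2⟩
        have hTE : T ⊆ M.E := hTs.trans (Set.sdiff_subset.trans (Set.union_subset hNE hC₁E))
        have hTf : T.Finite := hEf.subset hTE
        have hpT : p ∉ T := fun h1 => (hTs h1).2 rfl
        have hqT : q ∉ T := by
          intro h1
          rcases (hTs h1).1 with h2 | h2
          · exact hD₁N q hqD h2
          · exact hCD q hqD h2
        have hpc : p ∉ R.closure T := fun h1 => hp' (R.closure_subset_closure hTs h1)
        have hqc : q ∉ R.closure T := fun h1 => hq (R.closure_subset_closure hTs h1)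
        have e1 : I ∪ C₁ = insert p T := by
          ext z
          constructor
          · rintro (hz | hz)
            · exact Or.inr (Or.inl hz)
            · by_cases hzp : z = p
              · exact Or.inl hzp
              · exact Or.inr (Or.inr ⟨hz, hzp⟩)
          · rintro (hz | hz | hz)
            · exact Or.inr (hz ▸ hpC)
            · exact Or.inl hz
            · exact Or.inr hz.1
        have e2 : I ∪ insert q (C₁ \ {p}) = insert q T := by
          ext z
          constructor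
          · rintro (hz | hz | hz)
            · exact Or.inr (Or.inl hz)
            · exact Or.inl hz
            · exact Or.inr (Or.inr hz)
          · rintro (hz | hz | hz)
            · exact Or.inr (Or.inl hz)
            · exact Or.inl hz
            · exact Or.inr (Or.inr hz)
        have key : ∀ z ∈ R.E, z ∉ T → z ∉ R.closure T → (R.Indep (insert z T) ↔ R.Indep T) := by
          intro z hz hzT hzc
          constructor
          · exact fun h1 => h1.subset (Set.subset_insert _ _)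
          · exact fun h1 => (h1.notMem_closure_iff_of_notMem hzT hz).1 hzc
        rw [e1, e2, hRi _ (Set.insert_subset (hC₁E hpC) hTE), hRi _ (Set.insert_subset hqE hTE),
          key p hpE hpT hpc, key q hqR hqT hqc, Set.ncard_insert_of_notMem hpT hTf,
          Set.ncard_insert_of_notMem hqT hTf]
      have hCi : M.Indep (insert q (C₁ \ {p})) := by
        have h1 := (hi ∅ (Set.empty_subset _)).1 (by rw [Set.empty_union]; exact h.i1)
        rwa [Set.empty_union] at h1
      have hd : Disjoint (insert q (C₁ \ {p})) N.E := by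
        rw [Set.disjoint_left]
        rintro z (hz | hz)
        · rw [hz]
          exact hD₁N q hqD
        · exact hC₁N z hz.1
      have h1 := idata_swap_con h hCi hd hi (Set.mem_insert q _)
      have h2 := idata_con h.symm hqC
      exact h.inter.con q hqE h1 h2
    have hall : R.E \ {p} ⊆ R.closure ((N.E ∪ X.E ∪ C₁) \ {p}) := by
      rintro z ⟨hz, hzp⟩
      have hg : (N.E ∪ X.E ∪ C₁) \ {p} ⊆ R.E := by
        rw [hRE]
        exact Set.sdiff_subset.trans (Set.union_subset (Set.union_subset hNE hXE) hC₁E)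
      rw [hRE] at hz
      by_cases hzN : z ∈ N.E
      · exact R.mem_closure_of_mem ⟨Or.inl (Or.inl hzN), hzp⟩ hg
      rcases (Set.ext_iff.1 h.e1 z).2 ⟨hz, hzN⟩ with h1 | h1
      · exact R.mem_closure_of_mem ⟨Or.inr h1, hzp⟩ hg
      rcases idata_D h h1 with h2 | h2
      · exact R.mem_closure_of_mem ⟨Or.inl (Or.inr h2), hzp⟩ hg
      · exact R.closure_subset_closure hsubA (claim z h2)
    exact hcon (R.closure_subset_closure_of_subset_closure hall hp)
  have hfin : {f | f ∈ C₁ ∧ f ∈ R.closure ((N.E ∪ X.E ∪ C₁) \ {f})}.Finite :=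
    (hEf.subset hC₁E).subset fun f hf => hf.1
  calc {p | p ∈ C₁ ∩ D₂ ∧ p ∈ R.closure (R.E \ {p})}.ncard
      ≤ {f | f ∈ C₁ ∧ f ∈ R.closure ((N.E ∪ X.E ∪ C₁) \ {f})}.ncard :=
        Set.ncard_le_ncard hsub hfin
    _ ≤ (N.E ∪ X.E).ncard * l := hcount
    _ ≤ (N.E.ncard + X.E.ncard) * l := Nat.mul_le_mul_right _ (Set.ncard_union_le _ _)

end Pool.Agent.MP8f11b1
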