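import Pool.Agent.Lib.MP_8f11b1_co_OG.Bas
import Pool.Agent.Lib.MP_8f11b1_co_AM.RCol

/-! Coloops. -/

set_option autoImplicit false

namespace Pool.Agent.MP8f11b1

open Matroid

variable {α : Type}

/-- a coloop of `R` in `C₁ ∩ D₂` bounds the rank -/
theorem nsf_col {M N X : Matroid α} [M.Finite] {l : ℕ} (hl : 1 ≤ l) {C₁ D₁ C₂ D₂ : Set α}
    (h : IData M N X C₁ D₁ C₂ D₂) (R : Matroid α) (hRE : R.E = M.E)
    (hRc : ∀ C, R.IsCircuit C → C.ncard < l)
    (hRi : ∀ I ⊆ M.E, M.Indep I ↔ R.Indep I ∧ I.ncard ≤ rk M M.E) {p : α} (hp : p ∈ C₁ ∩ D₂)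
    (hpR : p ∉ R.closure (R.E \ {p})) : rk M M.E ≤ X.E.ncard * l + X.E.ncard := by
  have hEf : M.E.Finite := M.ground_finite
  have hRfin : R.Finite := ⟨by rw [hRE]; exact hEf⟩
  have hXE : X.E ⊆ M.E := h.inter.hX.subset
  have hC₂E : C₂ ⊆ M.E := h.i2.subset_ground
  have hC₂X : ∀ z ∈ C₂, z ∉ X.E := fun z hz => ((Set.ext_iff.1 h.e2 z).1 (Or.inl hz)).2
  have hD₂X : ∀ z ∈ D₂, z ∉ X.E := fun z hz => ((Set.ext_iff.1 h.e2 z).1 (Or.inr hz)).2
  have hD₂E : ∀ z ∈ D₂, z ∈ M.E := fun z hz => ((Set.ext_iff.1 h.e2 z).1 (Or.inr hz)).1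
  have hCD : ∀ z ∈ D₂, z ∉ C₂ := fun z hz hz' => Set.disjoint_left.1 h.d2 hz' hz
  have hRC₂ : R.Indep C₂ := ((hRi C₂ hC₂E).1 h.i2).1
  have hpE : p ∈ M.E := hD₂E p hp.2
  have hpR' : p ∈ R.E := by rw [hRE]; exact hpE
  have hcl : ∀ c ∈ C₂, c ∈ R.closure ((X.E ∪ C₂) \ {c}) := by
    intro c hc
    by_contra hcon
    have hcE : c ∈ R.E := by rw [hRE]; exact hC₂E hc
    have hi : ∀ I ⊆ X.E, M.Indep (I ∪ C₂) ↔ M.Indep (I ∪ insert p (C₂ \ {c})) := by
      intro I hI
      set T := I ∪ (C₂ \ {c}) with hT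
      have hTs : T ⊆ (X.E ∪ C₂) \ {c} := by
        rintro z (hz | hz)
        · refine ⟨Or.inl (hI hz), fun hzp => ?_⟩
          rw [Set.mem_singleton_iff] at hzp
          exact hC₂X c hc (hzp ▸ hI hz)
        · exact ⟨Or.inr hz.1, hz.2⟩
      have hTE : T ⊆ M.E := hTs.trans (Set.sdiff_subset.trans (Set.union_subset hXE hC₂E))
      have hTf : T.Finite := hEf.subset hTE
      have hcT : c ∉ T := fun h1 => (hTs h1).2 rfl
      have hpT : p ∉ T := by
        intro h1
        rcases (hTs h1).1 with h2 | h2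
        · exact hD₂X p hp.2 h2
        · exact hCD p hp.2 h2
      have hTp : T ⊆ R.E \ {p} := by
        intro z hz
        refine ⟨by rw [hRE]; exact hTE hz, fun hzp => ?_⟩
        rw [Set.mem_singleton_iff] at hzp
        exact hpT (hzp ▸ hz)
      have hcc : c ∉ R.closure T := fun h1 => hcon (R.closure_subset_closure hTs h1)
      have hpc : p ∉ R.closure T := fun h1 => hpR (R.closure_subset_closure hTp h1)
      have e1 : I ∪ C₂ = insert c T := by
        ext z
        constructor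
        · rintro (hz | hz)
          · exact Or.inr (Or.inl hz)
          · by_cases hzp : z = c
            · exact Or.inl hzp
            · exact Or.inr (Or.inr ⟨hz, hzp⟩)
        · rintro (hz | hz | hz)
          · exact Or.inr (hz ▸ hc)
          · exact Or.inl hz
          · exact Or.inr hz.1
      have e2 : I ∪ insert p (C₂ \ {c}) = insert p T := by
        ext z
        constructor
        · rintro (hz | hz | hz)
          · exact Or.inr (Or.inl hz)
          · exact Or.inl hz
          · exact Or.inr (Or.inr hz)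
        · rintro (hz | hz | hz)
          · exact Or.inr (Or.inl hz)
          · exact Or.inl hz
          · exact Or.inr (Or.inr hz)
      have key : ∀ z ∈ R.E, z ∉ T → z ∉ R.closure T → (R.Indep (insert z T) ↔ R.Indep T) := by
        intro z hz hzT hzc
        constructor
        · exact fun h1 => h1.subset (Set.subset_insert _ _)
        · exact fun h1 => (h1.notMem_closure_iff_of_notMem hzT hz).1 hzc
      rw [e1, e2, hRi _ (Set.insert_subset (hC₂E hc) hTE), hRi _ (Set.insert_subset hpE hTE),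
        key c hcE hcT hcc, key p hpR' hpT hpc, Set.ncard_insert_of_notMem hcT hTf,
        Set.ncard_insert_of_notMem hpT hTf]
    have hCi : M.Indep (insert p (C₂ \ {c})) := by
      have h1 := (hi ∅ (Set.empty_subset _)).1 (by rw [Set.empty_union]; exact h.i2)
      rwa [Set.empty_union] at h1
    have hd : Disjoint (insert p (C₂ \ {c})) X.E := by
      rw [Set.disjoint_left]
      rintro z (hz | hz)
      · rw [hz]
        exact hD₂X p hp.2
      · exact hC₂X z hz.1
    have h1 := idata_swap_con h.symm hCi hd hi (Set.mem_insert p _)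
    have h2 := idata_con h hp.1
    exact h.inter.con p hpE h2 h1
  have hcount := col_count R hl hRc hRC₂ (hXE.trans hRE.symm.subset)
  have hset : {f | f ∈ C₂ ∧ f ∈ R.closure ((X.E ∪ C₂) \ {f})} = C₂ := by
    ext f
    exact ⟨fun hf => hf.1, fun hf => ⟨hf, hcl f hf⟩⟩
  rw [hset] at hcount
  obtain ⟨B, hB⟩ := X.exists_isBase
  have hBn : B.ncard ≤ X.E.ncard := Set.ncard_le_ncard hB.subset_ground (hEf.subset hXE)
  rw [← rk_isBase (h.b2 B hB)]
  have hu := Set.ncard_union_le B C₂
  omega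

end Pool.Agent.MP8f11b1
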