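import Pool.Agent.Lib.MP_8f11b1_co_OG.NsA
import Pool.Agent.Lib.MP_8f11b1_co_OG.NsC
import Pool.Agent.Lib.MP_8f11b1_co_AM.CircM

/-! Minimal matroids without long nonspanning circuits. -/

set_option autoImplicit false

namespace Pool.Agent.MP8f11b1

open Matroid

variable {α : Type}

theorem nsf_half {M N X : Matroid α} [M.Finite] {l : ℕ} (hl : 1 ≤ l)
    (hns : ∀ C, M.IsCircuit C → ¬ M.Spanning C → C.ncard < l) {C₁ D₁ C₂ D₂ : Set α}
    (h : IData M N X C₁ D₁ C₂ D₂) :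
    (C₁ ∩ D₂).ncard ≤ (N.E.ncard + X.E.ncard) * (l + 1) + 2 * l := by
  haveI := Classical.decEq α
  have hf : (C₁ ∩ D₂).Finite :=
    M.ground_finite.subset (Set.inter_subset_left.trans h.i1.subset_ground)
  have hrk : (C₁ ∩ D₂).ncard ≤ rk M M.E := by
    rw [← rk_indep (h.i1.subset Set.inter_subset_left)]
    exact rk_mono (Set.inter_subset_left.trans h.i1.subset_ground)
  by_cases hr : 2 * l ≤ rk M M.E + 1
  swap
  · omega
  obtain ⟨R, hRE, hRc, hRi⟩ := small_mat M hr hns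
  have hRc' : ∀ C, R.IsCircuit C → C.ncard < l := fun C hC => (hRc C hC).2
  by_cases hcol : ∃ p ∈ C₁ ∩ D₂, p ∉ R.closure (R.E \ {p})
  · obtain ⟨p, hp, hpR⟩ := hcol
    have h1 := nsf_col hl h R hRE hRc' hRi hp hpR
    nlinarith [Nat.zero_le (N.E.ncard * l)]
  · push Not at hcol
    have h1 := nsf_noncol hl h R hRE hRc' hRi
    have h2 : {p | p ∈ C₁ ∩ D₂ ∧ p ∈ R.closure (R.E \ {p})} = C₁ ∩ D₂ := by
      ext p
      exact ⟨fun h => h.1, fun h => ⟨h, hcol p h⟩⟩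
    rw [h2] at h1
    nlinarith

theorem nsf_bound {M N X : Matroid α} [M.Finite] {l : ℕ} (hl : 1 ≤ l)
    (hns : ∀ C, M.IsCircuit C → ¬ M.Spanning C → C.ncard < l) (h : Inter M N X) :
    M.E.ncard ≤ (N.E.ncard + X.E.ncard) * (2 * l + 3) + 4 * l := by
  obtain ⟨C₁, D₁, C₂, D₂, H⟩ := idata_exists h
  have h1 := idata_card H
  have h2 := nsf_half hl hns H
  have h3 := nsf_half hl hns H.symm
  nlinarith

end Pool.Agent.MP8f11b1
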